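import Pool.Agent.E8helper11.FL.Stm

/-!
MP_edbb78_co, piece GRID: the parts `B b i`, `L b i`, `R i` form a `K`-fat minor of the
`2 × t` grid.
-/

open SimpleGraph FL11

namespace Pool.Agent.E8helper25.FL

variable {V : Type}

theorem farS_symm {G : SimpleGraph V} {K : ℕ} {A B : Set V} (h : FarS G K A B) : FarS G K B A := by
  intro b hb a ha
  rw [SimpleGraph.dist_comm]
  exact h a ha b hb

/-- the row of a vertex -/
def bb (a : Fin 2) : Bool := decide (a = 1)

/-- the connecting sets -/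
noncomputable def PP {t : ℕ} (L : Bool → ℕ → Set V) (R : ℕ → Set V) :
    Sym2 (Fin 2 × Fin t) → Set V :=
  Sym2.lift ⟨fun x y => if x.2 = y.2 then R x.2 else
    L (decide (x.1 = 1 ∧ y.1 = 1)) (min (x.2 : ℕ) (y.2 : ℕ)), by
      intro x y
      by_cases h : x.2 = y.2
      · simp [h]
      · have h' : ¬ y.2 = x.2 := fun e => h e.symm
        simp only [h, h', if_false, and_comm, min_comm]⟩

theorem PP_R {t : ℕ} (L : Bool → ℕ → Set V) (R : ℕ → Set V) (i : Fin t) :
    PP L R s((0, i), (1, i)) = R i := by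
  simp [PP]

theorem PP_L {t : ℕ} (L : Bool → ℕ → Set V) (R : ℕ → Set V) (a : Fin 2) (i : ℕ) (h : i + 1 < t) :
    PP L R s((a, (⟨i, by omega⟩ : Fin t)), (a, (⟨i + 1, h⟩ : Fin t))) = L (bb a) i := by
  simp [PP, bb]

theorem edge_cases {t : ℕ} {e : Sym2 (Fin 2 × Fin t)}
    (he : e ∈ (pathGraph 2 □ pathGraph t).edgeSet) :
    (∃ i : Fin t, e = s((0, i), (1, i))) ∨
    (∃ (a : Fin 2) (i : ℕ) (h : i + 1 < t),
      e = s((a, (⟨i, by omega⟩ : Fin t)), (a, (⟨i + 1, h⟩ : Fin t)))) := by
  induction e using Sym2.ind with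
  | _ x y =>
    rw [SimpleGraph.mem_edgeSet, SimpleGraph.boxProd_adj] at he
    obtain ⟨x1, x2⟩ := x
    obtain ⟨y1, y2⟩ := y
    simp only [SimpleGraph.pathGraph_adj] at he
    rcases he with ⟨h1, h2⟩ | ⟨h1, h2⟩
    · left
      subst h2
      refine ⟨x2, ?_⟩
      have hx := x1.2
      have hy := y1.2
      rcases h1 with h1 | h1
      · have e1 : x1 = 0 := Fin.ext (by simp; omega)
        have e2 : y1 = 1 := Fin.ext (by simp; omega)
        rw [e1, e2]
      · have e1 : x1 = 1 := Fin.ext (by simp; omega)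
        have e2 : y1 = 0 := Fin.ext (by simp; omega)
        rw [e1, e2, Sym2.eq_swap]
    · right
      subst h2
      have hx := x2.2
      have hy := y2.2
      rcases h1 with h1 | h1
      · refine ⟨x1, x2, by omega, ?_⟩
        have e2 : y2 = ⟨(x2 : ℕ) + 1, by omega⟩ := Fin.ext (by simp; omega)
        exact congrArg (fun z => s((x1, x2), (x1, z))) e2
      · refine ⟨x1, y2, by omega, ?_⟩
        have e2 : x2 = ⟨(y2 : ℕ) + 1, by omega⟩ := Fin.ext (by simp; omega)
        exact (congrArg (fun z => s((x1, z), (x1, y2))) e2).trans Sym2.eq_swap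

theorem bb_cases (a : Fin 2) : (a = 0 ∧ bb a = false) ∨ (a = 1 ∧ bb a = true) := by
  fin_cases a <;> simp [bb]

theorem bb_ne {a a' : Fin 2} (h : a ≠ a') : bb a' = !(bb a) := by
  rcases bb_cases a with ⟨h1, h2⟩ | ⟨h1, h2⟩ <;> rcases bb_cases a' with ⟨h3, h4⟩ | ⟨h3, h4⟩ <;>
    simp_all

theorem grid : S_GRID := by
  intro V G K t B L R hB hL hR hBB hBB' hLL hLL' hRR hRL hBL hBL' hBR
  refine ⟨fun x => B (bb x.1) x.2, PP L R, ?_, ?_, ?_, ?_, ?_⟩
  · rintro ⟨a, i⟩
    exact hB (bb a) i i.2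
  · intro e he
    rcases edge_cases he with ⟨i, rfl⟩ | ⟨a, i, h, rfl⟩
    · obtain ⟨u, v, q, hq, hRq, hu, hv, hz⟩ := hR i i.2
      refine ⟨(0, i), (1, i), u, v, q, rfl, hq, ?_, ?_, ?_, ?_⟩
      · rw [PP_R]; exact hRq
      · simpa [bb] using hu
      · simpa [bb] using hv
      · simpa [bb] using hz
    · obtain ⟨u, v, q, hq, hRq, hu, hv, hz⟩ := hL (bb a) i h
      refine ⟨_, _, u, v, q, rfl, hq, ?_, ?_, ?_, ?_⟩
      · rw [PP_L]; exact hRq
      · exact hu
      · exact hv
      · exact hz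
  · rintro ⟨a, i⟩ ⟨a', j⟩ hne
    show FarS G K (B (bb a) i) (B (bb a') j)
    by_cases haa : a = a'
    · subst haa
      have hij : (i : ℕ) ≠ j := by
        intro h
        exact hne (by rw [Fin.ext h])
      rcases lt_or_gt_of_ne hij with h | h
      · exact hBB (bb a) i j h j.2
      · exact farS_symm (hBB (bb a) j i h i.2)
    · rcases bb_cases a with ⟨h1, h2⟩ | ⟨h1, h2⟩ <;> rcases bb_cases a' with ⟨h3, h4⟩ | ⟨h3, h4⟩
      · exact absurd (h1.trans h3.symm) haa
      · rw [h2, h4]; exact hBB' i i.2 j j.2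
      · rw [h2, h4]; exact farS_symm (hBB' j j.2 i i.2)
      · exact absurd (h1.trans h3.symm) haa
  · intro e he e' he' hne
    rcases edge_cases he with ⟨i, rfl⟩ | ⟨a, i, h, rfl⟩ <;>
      rcases edge_cases he' with ⟨j, rfl⟩ | ⟨a', j, h', rfl⟩
    · rw [PP_R, PP_R]
      have hij : (i : ℕ) ≠ j := by
        intro h
        exact hne (by rw [Fin.ext h])
      rcases lt_or_gt_of_ne hij with h | h
      · exact hRR i j h j.2
      · exact farS_symm (hRR j i h i.2)
    · rw [PP_R, PP_L]
      exact hRL (bb a') i i.2 j h'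
    · rw [PP_R, PP_L]
      exact farS_symm (hRL (bb a) j j.2 i h)
    · rw [PP_L, PP_L]
      by_cases haa : a = a'
      · subst haa
        have hij : i ≠ j := by
          intro h
          subst h
          exact hne rfl
        rcases lt_or_gt_of_ne hij with h1 | h1
        · exact hLL (bb a) i j h1 h'
        · exact farS_symm (hLL (bb a) j i h1 h)
      · rcases bb_cases a with ⟨h1, h2⟩ | ⟨h1, h2⟩ <;> rcases bb_cases a' with ⟨h3, h4⟩ | ⟨h3, h4⟩
        · exact absurd (h1.trans h3.symm) haa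
        · rw [h2, h4]; exact hLL' i h j h'
        · rw [h2, h4]; exact farS_symm (hLL' j h' i h)
        · exact absurd (h1.trans h3.symm) haa
  · rintro ⟨a, i⟩ e he hx
    show FarS G K (B (bb a) i) (PP L R e)
    rcases edge_cases he with ⟨j, rfl⟩ | ⟨a', j, h', rfl⟩
    · rw [PP_R]
      have hij : (i : ℕ) ≠ j := by
        intro h
        apply hx
        rw [Fin.ext h, Sym2.mem_iff]
        rcases bb_cases a with ⟨h1, -⟩ | ⟨h1, -⟩
        · left; rw [h1]
        · right; rw [h1]
      exact hBR (bb a) i i.2 j j.2 hij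
    · rw [PP_L]
      by_cases haa : a = a'
      · subst haa
        apply hBL (bb a) i i.2 j h'
        · intro h
          apply hx
          rw [Sym2.mem_iff]
          left
          exact Prod.ext rfl (Fin.ext h)
        · intro h
          apply hx
          rw [Sym2.mem_iff]
          right
          exact Prod.ext rfl (Fin.ext h)
      · rw [bb_ne haa]
        exact hBL' (bb a) i i.2 j h'

end Pool.Agent.E8helper25.FL
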